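import Mathlib
import Pool.Agent.Q238.KT.Step
import Pool.Agent.Q238.KT.Comb
import Pool.Agent.Q172.KT.Comp
import Pool.Agent.Q172.KT.Conn
import Pool.Agent.Q172.KT.Lc
import Pool.Agent.Q172.KT.Lpc
import Pool.Agent.Q172.KT.Parts
import Pool.Agent.Q172.KT.Sel
import Pool.Agent.Q172.KT.Fin

/-!
# MP_f86da0_gt: one-point unions of exactly `k`-to-one images of dendrites

Let `k ≥ 2` and let `Y₁`, `Y₂` be exactly `k`-to-one images of dendrites in a metric space, which
have exactly one point `p` in common. Then `Y₁ ∪ Y₂` is an exactly `k`-to-one image of a dendrite.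

Proof. `Y₂` is the image of a forest (start: one dendrite). As long as the forest has less than `k`
components, some component contains two points `b ≠ b'` of the fibre of `p`. On the arc `α` from `b` to
`b'` there are points `α (t 0), α (t 1), ...` converging to `α T`, with partners `m j` in the same fibre
which converge to a point different from `α T`. The component is cut along the arc: the part between
`α (t j)` and `α (t (j + 1))` is attached at `m j` instead of `α (t j)`. The map is still exactly
`k`-to-one and the forest has one more component; all components meet the fibre of `p`. In the end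
there are `k` components with one point of the fibre each; they are attached to the `k` points over
`p` of the dendrite of `Y₁`.
-/

set_option autoImplicit false

open Set Topology

namespace Pool.Agent.Results.MP_f86da0_gt.WedgeIsImage

/-- The space contains no simple closed curve: no continuous map from the circle is injective. -/
def NoCircle (X : Type) [TopologicalSpace X] : Prop :=
  ∀ γ : Circle → X, Continuous γ → ¬ Function.Injective γ

/-- A dendrite: a nonempty compact connected locally connected metrizable space without simple closed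
curve. -/
structure IsDendrite (X : Type) [TopologicalSpace X] : Prop where
  metrizable : TopologicalSpace.MetrizableSpace X
  compact : CompactSpace X
  connected : ConnectedSpace X
  locallyConnected : LocallyConnectedSpace X
  noCircle : NoCircle X

/-- `Y` is the image of a dendrite under a continuous map all of whose fibres over the points of `Y`
have exactly `k` points. -/
def IsImage {Z : Type} [MetricSpace Z] (k : ℕ) (Y : Set Z) : Prop :=
  ∃ (D : Type) (_ : TopologicalSpace D), IsDendrite D ∧ ∃ f : D → Z, Continuous f ∧
    range f = Y ∧ ∀ y ∈ Y, (f ⁻¹' {y}).ncard = k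

open Pool.Agent.Q172.KT in
theorem toKT {Z : Type} [MetricSpace Z] {k : ℕ} {Y : Set Z} (h : IsImage k Y) :
    Pool.Agent.Q172.KT.IsImage k Y := by
  obtain ⟨D, t, hD, f, h1, h2, h3⟩ := h
  exact ⟨D, t, ⟨hD.metrizable, hD.compact, hD.connected, hD.locallyConnected, hD.noCircle⟩,
    f, h1, h2, h3⟩

theorem ofKT {Z : Type} [MetricSpace Z] {k : ℕ} {Y : Set Z}
    (h : Pool.Agent.Q172.KT.IsImage k Y) : IsImage k Y := by
  obtain ⟨D, t, hD, f, h1, h2, h3⟩ := h
  exact ⟨D, t, ⟨hD.metrizable, hD.compact, hD.connected, hD.locallyConnected, hD.noCircle⟩,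
    f, h1, h2, h3⟩

/-- **Main theorem.** Let `k ≥ 2` and let `Y₁`, `Y₂` be subsets of a metric space, each of which is the
image of a dendrite under an exactly `k`-to-one map, such that `Y₁ ∩ Y₂` consists of exactly one point.
Then `Y₁ ∪ Y₂` is the image of a dendrite under an exactly `k`-to-one map. -/
theorem result : ∀ (Z : Type) [MetricSpace Z] (k : ℕ) (Y₁ Y₂ : Set Z) (p : Z), 2 ≤ k →
    IsImage k Y₁ → IsImage k Y₂ → Y₁ ∩ Y₂ = {p} → IsImage k (Y₁ ∪ Y₂) := by
  intro Z _ k Y₁ Y₂ p hk h1 h2 hY
  have hp : p ∈ Y₁ ∩ Y₂ := by rw [hY]; exact rfl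
  have hgood1 : Pool.Agent.Q172.KT.Good Z k Y₂ p 1 := by
    obtain ⟨D, tD, hD, f, hf, hr, hc⟩ := toKT h2
    have := hD.metrizable
    let _ : MetricSpace D := TopologicalSpace.metrizableSpaceMetric D
    have hDc := hD.compact
    have hDcon := hD.connected
    have hDlc := hD.locallyConnected
    refine ⟨D, inferInstance, hDc, hDlc, hD.noCircle, f, hf, fun x => hr ▸ mem_range_self x, hc,
      fun _ => 0, continuous_const, fun i => ?_⟩
    have hi : (0 : Fin 1) = i := Subsingleton.elim _ _
    refine ⟨?_, ?_⟩
    · have : ((fun _ : D => (0 : Fin 1)) ⁻¹' {i}) = univ := by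
        ext x
        simp [hi]
      rw [this]
      exact isConnected_univ
    · have h3 : p ∈ range f := by rw [hr]; exact hp.2
      obtain ⟨x, hx⟩ := h3
      exact ⟨x, hi, hx⟩
  have hgood : ∀ N : ℕ, 1 ≤ N → N ≤ k → Pool.Agent.Q172.KT.Good Z k Y₂ p N := by
    intro N hN
    induction N, hN using Nat.le_induction with
    | base => exact fun _ => hgood1
    | succ N hN ih =>
      intro hle
      exact Pool.Agent.Q238.KT.stepS Pool.Agent.Q172.KT.compactS Pool.Agent.Q172.KT.connS
        Pool.Agent.Q172.KT.lcS Pool.Agent.Q172.KT.circleS Pool.Agent.Q172.KT.glueS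
        Pool.Agent.Q172.KT.lpcS Pool.Agent.Q238.KT.combS Pool.Agent.Q172.KT.partsS
        Pool.Agent.Q172.KT.selectS Z k Y₂ p N hk hp.2 hN (by omega) (ih (by omega))
  exact ofKT (Pool.Agent.Q172.KT.finalS Pool.Agent.Q172.KT.compactS Pool.Agent.Q172.KT.connS
    Pool.Agent.Q172.KT.lcS Pool.Agent.Q172.KT.circleS Pool.Agent.Q172.KT.glueS Z k Y₁ Y₂ p hk hY
    (toKT h1) (hgood k (by omega) le_rfl))

end Pool.Agent.Results.MP_f86da0_gt.WedgeIsImage
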